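import Pool.Agent.R508.AB.Main
import Pool.Agent.R508.AB.Sel
import Pool.Agent.R508.AB.Uni
import Pool.Agent.R508.AB.Erg

/-!
# Measure-wise embeddability does not give an almost Borel embedding

Full negative answer to Q1, for every `d ≥ 1`.

`Y` is the closed set of all sequences choosing, for every `j`, one of two cyclic groups of distinct
prime orders `r (j, 0)`, `r (j, 1)` and an element of it; `ℤ^d` acts by adding the first coordinate of
the time.  So `Y` is a family of odometers `Z_c` indexed by `c ∈ {0,1}^ℕ`.  Let `K ⊆ {0,1}^ℕ × ℕ^ℕ` be a
closed set with full projection but without Borel uniformization.  `X` is the closure of the set of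
the arrays in which, for some `(c, m) ∈ K`, the element of the `j`-th group of `Z_c` is written in the
column number `m j`, everything else being empty.  For an invariant probability `μ` of `Y` a Borel
map `m` with `(c, m c) ∈ K` for almost every `c` gives a realization of `(Y, μ)` on `X`.  An almost
Borel embedding would, by the ergodicity of the odometers, send almost every point of each `Z_c` to
the arrays belonging to a single pair `(c, m c) ∈ K`, and `c ↦ m c` would be a Borel uniformization.
-/

namespace Pool.Agent.Results.MP_93a5dd_an.NoAlmostBorelEmbedding

open MeasureTheory Pool.Agent.R508.AB

/-- **Main theorem.** For every `d ≥ 1` there are topological `ℤ^d`-systems `X` and `Y` (compact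
metric spaces with actions by homeomorphisms) such that for every invariant Borel probability
measure `μ` of `Y` the system `(Y, μ)` can be realized as an invariant measure on `X`, but there is no
almost Borel embedding of `Y` into `X`. -/
theorem result (d : ℕ) (hd : 1 ≤ d) :
    ∃ X Y : TopSystem d, (∀ μ : Measure Y.carrier, IsInvariantMeasure Y μ → Realized Y X μ) ∧
      ¬ AlmostBorelEmbeds Y X :=
  main sel uni erg d hd

end Pool.Agent.Results.MP_93a5dd_an.NoAlmostBorelEmbedding
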